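import Pool.Agent.V5helper90.ZL.Stm2
import Pool.Agent.V5helper29.ZL.GRP

/-!
# Hodge classes on words with few transcendental letters (job MISS)
-/

set_option autoImplicit false

namespace Pool.Agent.V5helper3.ZL

open Matrix Pool.Agent.N996.BP Pool.Agent.N996.FP
open Pool.Agent.V5helper90.ZL Pool.Agent.V5helper29.ZL
open Pool.Agent.V5helper89.KZ.KD (B U Wm)

variable {ι : Type} [Fintype ι] [DecidableEq ι]

lemma vecMul_adj {Q P P' : Matrix ι ι ℂ} (h : Pᵀ * Q = Q * P') (b : ι → ℂ) :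
    (Q *ᵥ b) ᵥ* P = Q *ᵥ (P' *ᵥ b) := by
  rw [← Matrix.mulVec_transpose, Matrix.mulVec_mulVec, h, ← Matrix.mulVec_mulVec]

lemma refl_mul (Q P : Matrix ι ι ℂ) (b : ι → ℂ) :
    refl Q b * P = P - (2 : ℂ) • vecMulVec b ((Q *ᵥ b) ᵥ* P) := by
  rw [Pool.Agent.V5helper90.ZL.refl, Matrix.sub_mul, Matrix.one_mul, Matrix.smul_mul, Matrix.vecMulVec_mul]

lemma mul_refl (Q P : Matrix ι ι ℂ) (b : ι → ℂ) :
    P * refl Q b = P - (2 : ℂ) • vecMulVec (P *ᵥ b) (Q *ᵥ b) := by
  rw [Pool.Agent.V5helper90.ZL.refl, Matrix.mul_sub, Matrix.mul_one, Matrix.mul_smul, Matrix.mul_vecMulVec]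

lemma refl_det {Q : Matrix ι ι ℂ} {b : ι → ℂ} (hb : bil Q b b = 1) : (refl Q b).det = -1 := by
  have h1 : refl Q b = 1 + vecMulVec ((-2 : ℂ) • b) (Q *ᵥ b) := by
    rw [Pool.Agent.V5helper90.ZL.refl, Matrix.smul_vecMulVec, neg_smul, sub_eq_add_neg]
  rw [h1, Matrix.vecMulVec_eq Unit, Matrix.det_one_add_replicateCol_mul_replicateRow,
    dotProduct_comm, smul_dotProduct]
  have h2 : b ⬝ᵥ (Q *ᵥ b) = 1 := hb
  rw [h2]
  norm_num

lemma refl_iso {Q : Matrix ι ι ℂ} (hQ : Qᵀ = Q) {b : ι → ℂ} (hb : bil Q b b = 1) :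
    (refl Q b)ᵀ * Q * refl Q b = Q := by
  have h1 : (refl Q b)ᵀ = 1 - (2 : ℂ) • vecMulVec (Q *ᵥ b) b := by
    rw [Pool.Agent.V5helper90.ZL.refl, Matrix.transpose_sub, Matrix.transpose_one, Matrix.transpose_smul,
      Matrix.transpose_vecMulVec]
  have h2 : b ᵥ* Q = Q *ᵥ b := by rw [← Matrix.mulVec_transpose, hQ]
  have h3 : b ⬝ᵥ (Q *ᵥ b) = 1 := hb
  rw [Matrix.mul_assoc, mul_refl, h1, Matrix.sub_mul, Matrix.one_mul, Matrix.smul_mul,
    Matrix.vecMulVec_mul, Matrix.vecMul_sub, Matrix.vecMul_smul, Matrix.vecMul_vecMulVec, h2, h3,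
    one_smul]
  have h4 : Q *ᵥ b - (2 : ℂ) • Q *ᵥ b = (-1 : ℂ) • (Q *ᵥ b) := by module
  rw [h4, Matrix.vecMulVec_smul]
  module

/-- the reflection and the blocks -/
lemma refl_blocks {H : HData ι} {τ : ι → Prop} {C : Type} [Fintype C] [DecidableEq C]
    {P : C → Matrix ι ι ℂ} {bar : C → C} (hB : Blocks H τ C P bar) {c₀ : C} (hc : bar c₀ = c₀)
    {b : ι → ℂ} (hb : P c₀ *ᵥ b = b) :
    (∀ c, c ≠ c₀ → refl (cQ H.Qr) b * P c = P c) ∧
    (∀ c, P c * refl (cQ H.Qr) b = refl (cQ H.Qr) b * P c) ∧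
    EE (P c₀) (refl (cQ H.Qr) b) = refl (cQ H.Qr) b ∧
    (∀ i, ¬ τ i → refl (cQ H.Qr) b *ᵥ Pi.single i 1 = Pi.single i 1) ∧
    ∀ i, ¬ τ i → (cQ H.Qr *ᵥ b) i = 0 := by
  have h0 : ∀ c, c ≠ c₀ → P c *ᵥ b = 0 := by
    intro c hcc
    rw [← hb, Matrix.mulVec_mulVec, hB.orth c c₀ hcc, Matrix.zero_mulVec]
  have hbar : ∀ c, c ≠ c₀ → bar c ≠ c₀ := by
    intro c hcc h
    apply hcc
    rw [← hB.bar_bar c, h, hc]
  have h1 : ∀ c, c ≠ c₀ → (cQ H.Qr *ᵥ b) ᵥ* P c = 0 := by
    intro c hcc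
    rw [vecMul_adj (hB.adj c), h0 _ (hbar c hcc), Matrix.mulVec_zero]
  have h2 : (cQ H.Qr *ᵥ b) ᵥ* P c₀ = cQ H.Qr *ᵥ b := by
    rw [vecMul_adj (hB.adj c₀), hc, hb]
  have h5 : ∀ i, ¬ τ i → (cQ H.Qr *ᵥ b) i = 0 := by
    intro i hi
    have h6 : ((cQ H.Qr *ᵥ b) ᵥ* P c₀) i = 0 := by
      have h7 := hB.alg c₀ i hi
      rw [Matrix.mulVec_single_one] at h7
      show (cQ H.Qr *ᵥ b) ⬝ᵥ (P c₀).col i = 0
      rw [h7, dotProduct_zero]
    rwa [h2] at h6
  have h3 : ∀ c, c ≠ c₀ → refl (cQ H.Qr) b * P c = P c := by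
    intro c hcc
    rw [refl_mul, h1 c hcc, Matrix.vecMulVec_zero, smul_zero, sub_zero]
  refine ⟨h3, fun c => ?_, ?_, fun i hi => ?_, h5⟩
  · by_cases hcc : c = c₀
    · rw [hcc, refl_mul, mul_refl, hb, h2]
    · rw [h3 c hcc, mul_refl, h0 c hcc, Matrix.zero_vecMulVec, smul_zero, sub_zero]
  · rw [EE, refl_mul, h2, Pool.Agent.V5helper90.ZL.refl]
    abel
  · rw [Pool.Agent.V5helper90.ZL.refl, Matrix.sub_mulVec, Matrix.one_mulVec, Matrix.smul_mulVec, Matrix.vecMulVec_mulVec,
      dotProduct_single, h5 i hi]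
    simp

lemma EE_det {Q P g : Matrix ι ι ℂ} (hQ : Qᵀ = Q) (hd : IsUnit Q.det) (hP : P * P = P)
    (hPQ : Pᵀ * Q = Q * P) (hgP : g * P = P * g) (hg : gᵀ * Q * g = Q) (h1 : (EE P g).det ≠ 1) :
    (EE P g).det = -1 := by
  have h2 := congrArg Matrix.det (EE_iso hQ hP hPQ hgP hg)
  rw [Matrix.det_mul, Matrix.det_mul, Matrix.det_transpose] at h2
  have h3 : ((EE P g).det - 1) * ((EE P g).det + 1) = 0 := by
    have h4 : Q.det * (((EE P g).det - 1) * ((EE P g).det + 1)) = 0 := by linear_combination h2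
    exact (mul_eq_zero.1 h4).resolve_left hd.ne_zero
  rcases mul_eq_zero.1 h3 with h4 | h4
  · exact absurd (by linear_combination h4) h1
  · linear_combination h4

theorem t_MISS (hGRP : S_GRP') (hREFL : S_REFL) : S_MISS := by
  intro ι κ _ _ _ _ H τ C _ _ P bar hB h hh hsmall g hgal hg2
  classical
  have hQ : (cQ H.Qr)ᵀ = cQ H.Qr := by
    ext i j
    rw [Matrix.transpose_apply, cQ, Matrix.map_apply, Matrix.map_apply, hB.sym]
  have hd := isUnit_Q H
  have hadj : ∀ c, bar c = c → (P c)ᵀ * cQ H.Qr = cQ H.Qr * P c := by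
    intro c hc
    have h1 := hB.adj c
    rwa [hc] at h1
  -- the reflections fix `h`
  have hfix : ∀ c, bar c = c → ∃ (s : ℕ) (b : Fin s → ι → ℂ),
      (∀ j, P c *ᵥ b j = b j) ∧ (∀ j, bil (cQ H.Qr) (b j) (b j) = 1) ∧ (∀ w, P c *ᵥ w = ∑ j, bil (cQ H.Qr) (b j) w • b j) ∧
      ∀ j, kp κ (refl (cQ H.Qr) (b j)) *ᵥ ca h = ca h := by
    intro c hc
    obtain ⟨s, b, hb1, hb2, hb3⟩ := exists_onb hQ hd (hB.idem c) (hadj c hc)
    have hs : (P c).rank ≤ s := by
      have h1 : LinearMap.range (P c).mulVecLin ≤ Submodule.span ℂ (Set.range b) := by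
        rintro x ⟨y, rfl⟩
        rw [Matrix.mulVecLin_apply, hb3]
        exact Submodule.sum_mem _ fun j _ =>
          Submodule.smul_mem _ _ (Submodule.subset_span ⟨j, rfl⟩)
      have h2 := Submodule.finrank_mono h1
      have h3 : (Set.range b).finrank ℂ ≤ Fintype.card (Fin s) := finrank_range_le_card b
      rw [Fintype.card_fin] at h3
      exact h2.trans h3
    have hn : ∀ j, bil (cQ H.Qr) (b j) (b j) = 1 := fun j => by rw [hb1, if_pos rfl]
    refine ⟨s, b, hb2, hn, hb3, ?_⟩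
    refine hREFL ι κ (cQ H.Qr) τ s b (ca h) hQ hb1 (fun j => (refl_blocks hB hc (hb2 j)).2.2.2.2)
      ?_ ?_
    · intro w hw
      refine (hsmall c hc w ?_).trans_le hs
      intro h0
      apply hw
      simp only [ca, h0, Rat.cast_zero]
    · intro i j
      obtain ⟨i1, i2, i3, i4, -⟩ := refl_blocks hB hc (hb2 i)
      obtain ⟨j1, j2, j3, j4, -⟩ := refl_blocks hB hc (hb2 j)
      have hmem : refl (cQ H.Qr) (b i) * refl (cQ H.Qr) (b j) ∈ So H := by
        refine hGRP ι H τ C P bar hB _ ?_ ?_ ?_ ?_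
        · intro x hx
          rw [← Matrix.mulVec_mulVec, j4 x hx, i4 x hx]
        · rw [Matrix.transpose_mul]
          calc (refl (cQ H.Qr) (b j))ᵀ * (refl (cQ H.Qr) (b i))ᵀ * cQ H.Qr *
                (refl (cQ H.Qr) (b i) * refl (cQ H.Qr) (b j)) =
                (refl (cQ H.Qr) (b j))ᵀ * ((refl (cQ H.Qr) (b i))ᵀ * cQ H.Qr *
                refl (cQ H.Qr) (b i)) * refl (cQ H.Qr) (b j) := by simp only [Matrix.mul_assoc]
            _ = cQ H.Qr := by rw [refl_iso hQ (hn i), refl_iso hQ (hn j)]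
        · intro c'
          rw [← Matrix.mul_assoc, i2, Matrix.mul_assoc, j2, ← Matrix.mul_assoc]
        · intro c' hc'
          by_cases hcc : c' = c
          · subst hcc
            have h1 : (1 - P c' + refl (cQ H.Qr) (b i) * refl (cQ H.Qr) (b j) * P c') =
                refl (cQ H.Qr) (b i) * refl (cQ H.Qr) (b j) := by
              have h2 : EE (P c') (refl (cQ H.Qr) (b i)) * EE (P c') (refl (cQ H.Qr) (b j)) =
                  1 - P c' + refl (cQ H.Qr) (b i) * refl (cQ H.Qr) (b j) * P c' := by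
                have h3 : P c' * (refl (cQ H.Qr) (b j) * P c') = refl (cQ H.Qr) (b j) * P c' := by
                  rw [← Matrix.mul_assoc, j2, Matrix.mul_assoc, hB.idem]
                have h4 : refl (cQ H.Qr) (b i) * P c' * P c' = refl (cQ H.Qr) (b i) * P c' := by
                  rw [Matrix.mul_assoc, hB.idem]
                have h5 : refl (cQ H.Qr) (b i) * P c' * (refl (cQ H.Qr) (b j) * P c') =
                    refl (cQ H.Qr) (b i) * refl (cQ H.Qr) (b j) * P c' := by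
                  rw [Matrix.mul_assoc, h3, Matrix.mul_assoc]
                simp only [EE, Matrix.add_mul, Matrix.mul_add, Matrix.sub_mul, Matrix.mul_sub,
                  Matrix.one_mul, Matrix.mul_one, hB.idem, h3, h4, h5]
                abel
              rw [← h2, i3, j3]
            rw [h1, Matrix.det_mul, refl_det (hn i), refl_det (hn j)]
            norm_num
          · rw [Matrix.mul_assoc, j1 c' hcc, i1 c' hcc, sub_add_cancel, Matrix.det_one]
      exact hmem κ h hh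
  -- induction on the number of blocks with determinant `-1`
  have key : ∀ (n : ℕ) (g : Matrix ι ι ℂ), (∀ i, ¬ τ i → g *ᵥ Pi.single i 1 = Pi.single i 1) →
      gᵀ * cQ H.Qr * g = cQ H.Qr → (∀ c, P c * g = g * P c) →
      (Finset.univ.filter fun c => bar c = c ∧ (EE (P c) g).det ≠ 1).card = n →
      kp κ g *ᵥ ca h = ca h := by
    intro n
    induction n with
    | zero =>
      intro g h1 h2 h3 h4
      have hmem : g ∈ So H := by
        refine hGRP ι H τ C P bar hB g h1 h2 h3 fun c hc => ?_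
        by_contra hcon
        have h5 : c ∈ Finset.univ.filter fun c => bar c = c ∧ (EE (P c) g).det ≠ 1 :=
          Finset.mem_filter.2 ⟨Finset.mem_univ _, hc, hcon⟩
        rw [Finset.card_eq_zero.1 h4] at h5
        exact Finset.notMem_empty _ h5
      exact hmem κ h hh
    | succ n ih =>
      intro g h1 h2 h3 h4
      obtain ⟨c, hcm⟩ := Finset.card_pos.1 (by omega :
        0 < (Finset.univ.filter fun c => bar c = c ∧ (EE (P c) g).det ≠ 1).card)
      obtain ⟨-, hc, hcd⟩ := Finset.mem_filter.1 hcm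
      obtain ⟨s, b, hb1, hb2, hs, hb3⟩ := hfix c hc
      -- the block is not zero
      have hspos : 0 < s := by
        by_contra hcon
        obtain rfl : s = 0 := by omega
        have h6 : P c = 0 := by
          rw [← Matrix.mulVec_injective.eq_iff]
          funext w
          rw [hs, Matrix.zero_mulVec]
          exact Finset.sum_of_isEmpty _
        apply hcd
        rw [EE, h6, Matrix.mul_zero, sub_zero, add_zero, Matrix.det_one]
      obtain ⟨r1, r2, r3, r4, -⟩ := refl_blocks hB hc (hb1 ⟨0, hspos⟩)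
      have hρ := hb3 ⟨0, hspos⟩
      have hρd := refl_det (hb2 ⟨0, hspos⟩)
      have hρi := refl_iso hQ (hb2 ⟨0, hspos⟩)
      set ρ := refl (cQ H.Qr) (b ⟨0, hspos⟩) with hρdef
      have hE1 : ∀ c', c' ≠ c → EE (P c') (g * ρ) = EE (P c') g := by
        intro c' hcc
        rw [EE, EE, Matrix.mul_assoc, r1 c' hcc]
      have hE2 : (EE (P c) (g * ρ)).det = 1 := by
        have h5 : EE (P c) (g * ρ) = EE (P c) g * ρ := by
          have h6 : EE (P c) g * EE (P c) ρ = EE (P c) (g * ρ) := by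
            have e3 : P c * (ρ * P c) = ρ * P c := by
              rw [← Matrix.mul_assoc, r2, Matrix.mul_assoc, hB.idem]
            have e4 : g * P c * P c = g * P c := by rw [Matrix.mul_assoc, hB.idem]
            have e5 : g * P c * (ρ * P c) = g * ρ * P c := by
              rw [Matrix.mul_assoc, e3, Matrix.mul_assoc]
            simp only [EE, Matrix.add_mul, Matrix.mul_add, Matrix.sub_mul, Matrix.mul_sub,
              Matrix.one_mul, Matrix.mul_one, hB.idem, e3, e4, e5]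
            abel
          rw [← h6, r3]
        rw [h5, Matrix.det_mul, hρd, EE_det hQ hd (hB.idem c) (hadj c hc) (h3 c).symm h2 hcd]
        norm_num
      have hcard : (Finset.univ.filter fun c' => bar c' = c' ∧ (EE (P c') (g * ρ)).det ≠ 1) =
          (Finset.univ.filter fun c' => bar c' = c' ∧ (EE (P c') g).det ≠ 1).erase c := by
        ext c'
        rw [Finset.mem_erase, Finset.mem_filter, Finset.mem_filter]
        by_cases hcc : c' = c
        · subst hcc
          simp only [hE2, ne_eq, not_true_eq_false, and_false, false_and]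
        · rw [hE1 c' hcc]
          simp only [hcc, ne_eq, not_false_eq_true, true_and]
      have h7 := ih (g * ρ) (fun i hi => by rw [← Matrix.mulVec_mulVec, r4 i hi, h1 i hi])
        (by
          rw [Matrix.transpose_mul]
          calc ρᵀ * gᵀ * cQ H.Qr * (g * ρ) = ρᵀ * (gᵀ * cQ H.Qr * g) * ρ := by
                simp only [Matrix.mul_assoc]
            _ = cQ H.Qr := by rw [h2, hρi])
        (fun c' => by rw [← Matrix.mul_assoc, h3, Matrix.mul_assoc, r2, ← Matrix.mul_assoc])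
        (by rw [hcard, Finset.card_erase_of_mem hcm, h4]; rfl)
      rw [kp_mul, ← Matrix.mulVec_mulVec, hρ] at h7
      exact h7
  exact key _ g hgal (tr_of_fixes hg2) (fun c => (comm_of_span (hB.comm c) hg2).symm) rfl

end Pool.Agent.V5helper3.ZL
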